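import Pool.Agent.W647.HX2

/-!
# The even Chern character of `K₀` of group rings and of rings graded by a group

If the canonical map `K₀(R) → K₀(R[G])` is surjective then the components of the Chern character
from `K₀(R[G])` to the cyclic homology of `R[G]` in the homology of `G` of degree `2 k > 0` vanish. We
prove, for all rings `R`, all groups `G`, all conjugacy classes of elements of finite order and all
`k > 0`, that `(2 k)! / k!` times these components are divisible by all integers, so that they are
zero if they have values in a torsion-free group without divisible elements (`R` need not be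
commutative, the coefficients are `R / [R, R]` tensored with the values of a cocycle, or any other
trace). The same holds for all rings graded by `G`: twisted group rings, crossed products, and
so on.
-/

set_option autoImplicit false

namespace Pool.Agent.Results.MP_1a2884_al.GradedEvenChern

open Pool.Agent.W647.HX1 Pool.Agent.W647.HV1 Pool.Agent.W647.HW1

universe u1 u2 u3 u4

open Classical in
/-- The number `∑ T (tr (f (w 0) f (w 1) ⋯ f (w m)), c (t, t w₀, …, t w₀ ⋯ w_{m-1}))`, the sum over all
`w ∈ G ^ (m + 1)` whose product `y` is conjugate to `g`; `t = t y` satisfies `t y t⁻¹ = g`. Here `f s`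
is a matrix over `S` for every `s ∈ G`. -/
noncomputable def chern {G : Type u1} [Group G] {S : Type u2} [Ring S] {A : Type u3}
    [AddCommGroup A] {M : Type u4} [AddCommGroup M] (T : S →+ A →+ M) (g : G) (t : G → G) {m n : ℕ}
    (c : (Fin (m + 1) → G) → A) (f : G → Matrix (Fin n) (Fin n) S) : M :=
  ∑ᶠ w : Fin (m + 1) → G, if IsConj (List.ofFn w).prod g then
    T (List.ofFn fun i => f (w i)).prod.trace
      (c fun i => t (List.ofFn w).prod * ((List.ofFn w).take i).prod) else 0

/-- `a x` is divisible in `M` by all positive integers; `a x = 0` if `0` is the only such element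
of `M`; and `x = 0` if moreover `M` is torsion-free. -/
def Vanishes {M : Type u4} [AddCommGroup M] (a : ℕ) (x : M) : Prop :=
  (∀ N : ℕ, N ≠ 0 → ∃ y : M, a • x = N • y) ∧
  ((∀ z : M, (∀ N : ℕ, N ≠ 0 → ∃ y : M, z = N • y) → z = 0) →
    a • x = 0 ∧ ((∀ (N : ℕ) (z : M), N ≠ 0 → N • z = 0 → z = 0) → x = 0))

lemma vanishes_of {M : Type u4} [AddCommGroup M] {a : ℕ} (ha : a ≠ 0) {x : M}
    (h : ∀ N : ℕ, N ≠ 0 → ∃ y : M, a • x = N • y) : Vanishes a x :=
  ⟨h, fun h2 => ⟨h2 _ h, fun h3 => h3 _ _ ha (h2 _ h)⟩⟩

/-- Let `G` be a group, `g ∈ G` of finite order (`g = 1` if `G` is torsion-free), `k ≥ 1`, `c` a class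
cocycle for `g` of degree `2 k` with values in the abelian group `A`.
(1) Let `R` be a ring, `e` an idempotent matrix over `R[G]`, `T : R × A → M` biadditive with
`T (x y, a) = T (y x, a)`. The Chern number of `e` for `g`, `c`, `T` vanishes, up to the factor
`(2 k)! / k!` and up to elements of `M` divisible by all integers.
(2) The same for idempotent matrices `e` over rings `S = ⨁ S_s` graded by `G`, `T : S × A → M`, with
the homogeneous components of `e`. -/
theorem result (G : Type u1) [Group G] [DecidableEq G] (A : Type u3) [AddCommGroup A]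
    (M : Type u4) [AddCommGroup M] (g : G) (hg : IsOfFinOrder g) (t : G → G)
    (ht : ∀ y, IsConj y g → t y * y * (t y)⁻¹ = g) (k : ℕ) (hk : k ≠ 0)
    (c : (Fin (2 * k + 1) → G) → A) (hc : IsClassCoc g c) (n : ℕ) :
    (∀ (R : Type u2) [Ring R] (T : R →+ A →+ M), (∀ x y, T (x * y) = T (y * x)) →
      ∀ e : Matrix (Fin n) (Fin n) (MonoidAlgebra R G), e * e = e →
        Vanishes ((2 * k).descFactorial k) (chern T g t c fun s => e.map fun x => x.coeff s)) ∧
    (∀ (S : Type u2) [Ring S] (𝒮 : G → AddSubgroup S) [DirectSum.Decomposition 𝒮],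
      (1 : S) ∈ 𝒮 1 → (∀ s s' : G, ∀ x ∈ 𝒮 s, ∀ y ∈ 𝒮 s', x * y ∈ 𝒮 (s * s')) →
      ∀ T : S →+ A →+ M, (∀ x y, T (x * y) = T (y * x)) →
      ∀ e : Matrix (Fin n) (Fin n) S, e * e = e →
        Vanishes ((2 * k).descFactorial k)
          (chern T g t c fun s => e.map fun x => (DirectSum.decompose 𝒮 x s : S))) := by
  have h0 : (2 * k).descFactorial k ≠ 0 := (Nat.descFactorial_pos.2 (by omega)).ne'
  refine ⟨fun R _ T hT e he => vanishes_of h0 fun N hN => ?_,
    fun S _ 𝒮 _ h1 hmul T hT e he => vanishes_of h0 fun N hN => ?_⟩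
  · exact evTau_dvd T hT hg ht hk hc e he N hN
  · exact graded_even 𝒮 h1 hmul T hT hg ht hk hc e he N hN

end Pool.Agent.Results.MP_1a2884_al.GradedEvenChern
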