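import Pool.Agent.U731.SG.Stable
import Pool.Agent.U731.SG.Quarter

set_option autoImplicit false

/-!
# `K_0` of group rings of torsion-free groups: hermitian patterns of small spectral span

Let `G` be a torsion-free group. Over a field `K`, idempotent matrices over `KG` which are supported
in a hermitian complex matrix with spectrum in an interval of length at most `3 √2` (off-diagonal
coefficients of absolute value at least one, diagonal arbitrary) have free row spaces; over any ring
`R`, if the length is less than `4`, they are conjugate to idempotent matrices over `R` by diagonal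
matrices of group elements. This applies to hermitian projections whose coefficients have
absolute value at least `1 / (3 √2)`, respectively more than `1 / 4`; the number `1 / 4` is optimal.
Up to free summands, all finitely presented modules are presented by square matrices of length
`s`, for every `s > 3 √2`.
-/

namespace Pool.Agent.Results.MP_1a2884_al.ProjectionsLargeCoefficients

open ComplexConjugate Matrix

/-- `G` is torsion-free. -/
def TorsionFree (G : Type) [Group G] : Prop := ∀ g : G, ∀ n : ℕ, 0 < n → g ^ n = 1 → g = 1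

/-- The values of `⟨xS, x⟩` on the unit vectors `x` of `ℓ²(G)^n` with finite support `T` lie in an
interval `[a, a + s]`; for hermitian `S` this says that the spectrum of right multiplication by `S`
lies in it. -/
def SpanLE {G : Type} [Group G] {n : ℕ} (S : Matrix (Fin n) (Fin n) (MonoidAlgebra ℂ G))
    (s : ℝ) : Prop :=
  ∃ a : ℝ, ∀ (T : Finset (Fin n × G)) (x : Fin n × G → ℂ),
    a * ∑ p ∈ T, ‖x p‖ ^ 2
      ≤ (∑ p ∈ T, ∑ q ∈ T, x p * (S p.1 q.1).coeff (p.2⁻¹ * q.2) * conj (x q)).re ∧
    (∑ p ∈ T, ∑ q ∈ T, x p * (S p.1 q.1).coeff (p.2⁻¹ * q.2) * conj (x q)).re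
      ≤ (a + s) * ∑ p ∈ T, ‖x p‖ ^ 2

/-- The support of `M` is contained in the support of a hermitian complex matrix `S` and the
identities on the diagonal; the nonzero coefficients of `S`, except those of the identity on the
diagonal, have absolute value at least one, and the spectrum of `S` lies in an interval of length
`s`. -/
def SupportSpanLE {R : Type} [Ring R] {G : Type} [Group G] {n : ℕ}
    (M : Matrix (Fin n) (Fin n) (MonoidAlgebra R G)) (s : ℝ) : Prop :=
  ∃ S : Matrix (Fin n) (Fin n) (MonoidAlgebra ℂ G),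
    (∀ i j g, (S j i).coeff g⁻¹ = conj ((S i j).coeff g)) ∧
    (∀ i j g, (S i j).coeff g ≠ 0 → (i = j ∧ g = 1) ∨ 1 ≤ ‖(S i j).coeff g‖) ∧
    (∀ i j g, (M i j).coeff g ≠ 0 → (i = j ∧ g = 1) ∨ (S i j).coeff g ≠ 0) ∧ SpanLE S s

/-- `A` is a hermitian idempotent matrix over `ℂG` whose nonzero coefficients, except those of the
identity on the diagonal, have absolute value at least `δ`. -/
def Projection {G : Type} [Group G] {n : ℕ} (A : Matrix (Fin n) (Fin n) (MonoidAlgebra ℂ G))
    (δ : ℝ) : Prop :=
  A * A = A ∧ (∀ i j g, (A j i).coeff g⁻¹ = conj ((A i j).coeff g)) ∧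
  ∀ i j g, (A i j).coeff g ≠ 0 → (i = j ∧ g = 1) ∨ δ ≤ ‖(A i j).coeff g‖

/-- The module `(RG)^m ⊕ P` is isomorphic to the cokernel of `M`, that is, `(RG)^n` modulo the rows
of `M`. -/
def StablyPresents {R : Type} [Ring R] {G : Type} [Group G] {n : ℕ}
    (P : Type) [AddCommGroup P] [Module (MonoidAlgebra R G) P] (m : ℕ)
    (M : Matrix (Fin n) (Fin n) (MonoidAlgebra R G)) : Prop :=
  Nonempty (((Fin m → MonoidAlgebra R G) × P) ≃ₗ[MonoidAlgebra R G]
    ((Fin n → MonoidAlgebra R G) ⧸ LinearMap.range M.vecMulLinear))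

/-- For a diagonal matrix `D` of group elements, `D A D⁻¹` is a matrix `E` over the coefficient ring,
which is idempotent if `A` is. -/
def FromCoefficients {R : Type} [Ring R] {G : Type} [Group G] {n : ℕ}
    (A : Matrix (Fin n) (Fin n) (MonoidAlgebra R G)) : Prop :=
  ∃ (u : Fin n → G) (E : Matrix (Fin n) (Fin n) R),
    (Matrix.diagonal fun i => MonoidAlgebra.single (u i) (1 : R)) * A *
      (Matrix.diagonal fun i => MonoidAlgebra.single (u i)⁻¹ (1 : R)) =
        E.map (fun r => MonoidAlgebra.single (1 : G) r) ∧ (A * A = A → E * E = E)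

/-- The row space of `A` is a free module. -/
def RowSpaceFree {R : Type} [Ring R] {G : Type} [Group G] {n : ℕ}
    (A : Matrix (Fin n) (Fin n) (MonoidAlgebra R G)) : Prop :=
  Module.Free (MonoidAlgebra R G) (LinearMap.range A.vecMulLinear)

/-- `S` is a set of additive generators of `R` with `1 ∈ S` and `-S = S`. -/
def Generates {R : Type} [Ring R] (S : Set R) : Prop :=
  (1 : R) ∈ S ∧ (∀ r ∈ S, -r ∈ S) ∧ AddSubgroup.closure S = ⊤

/-- For some `m` the module `(RG)^m ⊕ P` is presented by a square matrix with coefficients in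
`S ∪ {0}` and support span at most `s`. -/
def HasSquarePresentation {R : Type} [Ring R] (G : Type) [Group G] (S : Set R) (s : ℝ)
    (P : Type) [AddCommGroup P] [Module (MonoidAlgebra R G) P] : Prop :=
  ∃ (m n : ℕ) (M : Matrix (Fin n) (Fin n) (MonoidAlgebra R G)),
    StablyPresents P m M ∧ SupportSpanLE M s ∧
    ∀ i j g, (M i j).coeff g ≠ 0 → (M i j).coeff g ∈ S

theorem idem_of {R : Type} [Ring R] {G : Type} [Group G] {n : ℕ} (u : Fin n → G)
    (A : Matrix (Fin n) (Fin n) (MonoidAlgebra R G)) (E : Matrix (Fin n) (Fin n) R)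
    (h : (TH6.PF.dmU R u).val * A * (TH6.PF.dmU R u)⁻¹.val =
      E.map (fun r => MonoidAlgebra.single (1 : G) r)) (hA : A * A = A) : E * E = E := by
  have h1 : E.map (fun r => MonoidAlgebra.single (1 : G) r)
      * E.map (fun r => MonoidAlgebra.single (1 : G) r)
      = E.map (fun r => MonoidAlgebra.single (1 : G) r) := by
    rw [← h]
    calc (TH6.PF.dmU R u).val * A * (TH6.PF.dmU R u)⁻¹.val
          * ((TH6.PF.dmU R u).val * A * (TH6.PF.dmU R u)⁻¹.val)
        = (TH6.PF.dmU R u).val * A * ((TH6.PF.dmU R u)⁻¹.val * (TH6.PF.dmU R u).val) * A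
          * (TH6.PF.dmU R u)⁻¹.val := by simp only [Matrix.mul_assoc]
      _ = (TH6.PF.dmU R u).val * (A * A) * (TH6.PF.dmU R u)⁻¹.val := by
          rw [(TH6.PF.dmU R u).inv_mul, Matrix.mul_one, Matrix.mul_assoc _ A A]
      _ = _ := by rw [hA]
  ext i j
  have h2 := congrArg (fun M : Matrix (Fin n) (Fin n) (MonoidAlgebra R G) => (M i j).coeff 1) h1
  simp only [Matrix.map_apply, Matrix.mul_apply, MonoidAlgebra.single_mul_single, mul_one,
    MonoidAlgebra.coeff_sum, Finsupp.finsetSum_apply, MonoidAlgebra.coeff_single,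
    Finsupp.single_eq_same] at h2
  rw [Matrix.mul_apply]
  exact h2

/-- `G` is a torsion-free group.
1. Let `K` be a field and `P` a projective `KG`-module such that `(KG)^m ⊕ P` is presented by a square
matrix with support span at most `3 √2`. Then `(KG)^m ⊕ P` is free.
2. The row space of each idempotent matrix over `KG` with support span at most `3 √2` is free.
3. Let `R` be any ring. Each idempotent matrix over `RG` with support span less than `4` is conjugate
to an idempotent matrix over `R` by a diagonal matrix of group elements.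
4. A hermitian idempotent matrix over `ℂG` whose nonzero coefficients, except those of the identity
on the diagonal, have absolute value at least `1 / (3 √2)` has a free row space; if their absolute
value is more than `1 / 4`, then the matrix is conjugate to a complex matrix as in 3.
5. There is such a matrix with bound `1 / 4` over the infinite cyclic group which is not conjugate to
a complex matrix as in 3.
6. Let `R` be a nontrivial ring, `G` any group, `s > 3 √2` and let `S` be a set of additive generators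
of `R` with `1 ∈ S` and `-S = S`. Each finitely presented module is, after adding a free module,
presented by a square matrix with coefficients in `S ∪ {0}` and support span at most `s`. -/
theorem result :
    (∀ (G : Type) [Group G], TorsionFree G →
      (∀ (K : Type) [Field K] (P : Type) [AddCommGroup P] [Module (MonoidAlgebra K G) P]
        (m n : ℕ) (M : Matrix (Fin n) (Fin n) (MonoidAlgebra K G)) (s : ℝ),
        Module.Projective (MonoidAlgebra K G) P → StablyPresents P m M → SupportSpanLE M s →
        s ^ 2 ≤ 18 → Module.Free (MonoidAlgebra K G) ((Fin m → MonoidAlgebra K G) × P)) ∧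
      (∀ (K : Type) [Field K] (n : ℕ) (A : Matrix (Fin n) (Fin n) (MonoidAlgebra K G)) (s : ℝ),
        A * A = A → SupportSpanLE A s → s ^ 2 ≤ 18 → RowSpaceFree A) ∧
      (∀ (R : Type) [Ring R] (n : ℕ) (A : Matrix (Fin n) (Fin n) (MonoidAlgebra R G)) (s : ℝ),
        SupportSpanLE A s → s < 4 → FromCoefficients A) ∧
      ∀ (n : ℕ) (A : Matrix (Fin n) (Fin n) (MonoidAlgebra ℂ G)) (δ : ℝ), Projection A δ →
        (1 / (3 * Real.sqrt 2) ≤ δ → RowSpaceFree A) ∧ (1 / 4 < δ → FromCoefficients A)) ∧
    (∃ A : Matrix (Fin 2) (Fin 2) (MonoidAlgebra ℂ (Multiplicative ℤ)),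
      Projection A (1 / 4) ∧ ¬ FromCoefficients A) ∧
    ∀ (R : Type) [Ring R] [Nontrivial R] (S : Set R), Generates S →
      ∀ (G : Type) [Group G] (s : ℝ), 0 < s → 18 < s ^ 2 →
      ∀ (P : Type) [AddCommGroup P] [Module (MonoidAlgebra R G) P],
      Module.FinitePresentation (MonoidAlgebra R G) P → HasSquarePresentation G S s P := by
  refine ⟨fun G _ htf => ⟨?_, ?_, ?_, ?_⟩, ?_, ?_⟩
  · rintro K _ P _ _ m n M s hP ⟨φ⟩ hM hs
    obtain ⟨ρ, u, C, hC, hst⟩ := U731.SG.smallSpan_vc s hs M hM
    exact U731.SG.free_of_struct K G htf _ inferInstance n M φ ρ u C hC hst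
  · intro K _ n A s hA hM hs
    obtain ⟨ρ, u, C, hC, hst⟩ := U731.SG.smallSpan_vc s hs A hM
    exact U731.SG.free_of_idem_struct K G htf A hA ρ u C hC hst
  · intro R _ n A s hM hs
    obtain ⟨ρ, u, C, hC, hst⟩ := U731.SG.smallSpan_fin s hs A hM
    have h := U731.SG.const_of_struct R G htf A ρ u C hC hst
    exact ⟨u, _, h, idem_of u A _ h⟩
  · rintro n A δ ⟨hA, hherm, hbig⟩
    have h2 : (0 : ℝ) < Real.sqrt 2 := Real.sqrt_pos.2 (by norm_num)
    have h3 : Real.sqrt 2 ^ 2 = 2 := Real.sq_sqrt (by norm_num)
    constructor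
    · intro hδ
      have h4 : (0 : ℝ) < 1 / (3 * Real.sqrt 2) := by positivity
      have h5 : 1 ≤ 18 * δ ^ 2 := by
        have h6 : (1 / (3 * Real.sqrt 2)) ^ 2 ≤ δ ^ 2 := by gcongr
        rw [div_pow, mul_pow, h3] at h6
        linarith
      obtain ⟨ρ, u, C, hC, hst⟩ :=
        (U731.SG.struct_idem hherm hA δ (h4.trans_le hδ) hbig).1 h5
      exact U731.SG.free_of_idem_struct ℂ G htf A hA ρ u C hC hst
    · intro hδ
      obtain ⟨ρ, u, C, hC, hst⟩ :=
        (U731.SG.struct_idem hherm hA δ (by linarith) hbig).2 (by linarith)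
      have h := U731.SG.const_of_struct ℂ G htf A ρ u C hC hst
      exact ⟨u, _, h, idem_of u A _ h⟩
  · refine ⟨U731.SG.qproj, ⟨U731.SG.qproj_idem, U731.SG.qproj_herm, U731.SG.qproj_coeff⟩, ?_⟩
    rintro ⟨u, E, h, -⟩
    have h1 := congrArg (fun M : Matrix (Fin 2) (Fin 2) (MonoidAlgebra ℂ (Multiplicative ℤ)) =>
      (M 0 0).coeff (Multiplicative.ofAdd 1)) h
    rw [Matrix.mul_diagonal, Matrix.diagonal_mul, MonoidAlgebra.coeff_mul_single_apply,
      MonoidAlgebra.coeff_single_mul_apply, one_mul, mul_one, inv_inv, Matrix.map_apply,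
      MonoidAlgebra.coeff_single] at h1
    have h2 : (u 0)⁻¹ * (Multiplicative.ofAdd 1 * u 0) = Multiplicative.ofAdd (1 : ℤ) := by
      rw [mul_comm (Multiplicative.ofAdd (1 : ℤ)), inv_mul_cancel_left]
    rw [h2, Finsupp.single_eq_of_ne (by decide)] at h1
    exact U731.SG.qproj_ne h1
  · rintro R _ _ S ⟨h1, h2, h3⟩ G _ s hs0 hs P _ _ hP
    obtain ⟨m, n, M, h4, h5, h6⟩ := U731.SG.sym_pres ⟨h1, h2, h3⟩ _ hP s hs0 hs
    exact ⟨m, n, M, h6, h5, h4⟩

end Pool.Agent.Results.MP_1a2884_al.ProjectionsLargeCoefficients
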