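import Pool.Agent.U181.TG.Fields

/-!
# One countable test group for the canonical maps `K₀(R) → K₀(R[Γ])`

There is one countable torsion-free group `Γ₀` such that, for every ring `R`, the canonical map
`K₀(R) → K₀(R[Γ])` is bijective for all torsion-free groups `Γ` if and only if it is for `Γ₀`; and it is
bijective for all fields (division rings) and all torsion-free groups if and only if it is for all
countable fields (division rings) and the group `Γ₀`. The same holds for every class of groups which is
closed under subgroups and direct products.

`Γ₀` is the restricted direct product of the largest torsion-free quotients of the finitely presented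
groups. `K0` is the Grothendieck group of idempotent matrices (`Pool/Agent/Y75/NK/K0.lean` of the starting
library) and `canon R Γ : K₀(R) → K₀(R[Γ])` is induced by the inclusion of the coefficients.
-/

set_option autoImplicit false

namespace Pool.Agent.Results.MP_1a2884_al.TestGroups

open Pool.Agent.U181.TG

/-- The class of torsion-free groups is closed under subgroups and direct products. Let `C` be any class
with this property. (1) The restricted direct product `Test C` of the largest quotients `LQ C r S` in `C`
of the finitely presented groups `⟨x_1, ..., x_r | S⟩` is a countable group in `C`. (2) For every ring `R`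
the following are equivalent: `K₀(R) → K₀(R[Γ])` is bijective for all groups `Γ` in `C`; for the groups
`LQ C r S`; for the group `Test C`. (3) These maps are bijective for all division rings `R` and all `Γ` in
`C` if and only if they are for all countable division rings and `Γ = Test C`. (4) The same for fields. -/
theorem result :
    ClosedSP (fun G _ => TorsionFree G) ∧
    ∀ C : ∀ (G : Type) [Group G], Prop, ClosedSP C →
      (Countable (Test C) ∧ C (Test C)) ∧
      (∀ (R : Type) [Ring R], List.TFAE [BijClass C R, BijLQ C R, BijTest C R]) ∧
      ((∀ (K : Type) [DivisionRing K], BijClass C K) ↔
        ∀ (K : Type) [DivisionRing K], Countable K → BijTest C K) ∧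
      ((∀ (K : Type) [Field K], BijClass C K) ↔
        ∀ (K : Type) [Field K], Countable K → BijTest C K) := by
  refine ⟨closedSP_torsionFree, fun C hC => ⟨⟨countable_test, class_test hC⟩,
    fun R _ => canon_tfae R hC, ⟨fun h K _ _ => h K _ (class_test hC), fun h K _ => ?_⟩,
    ⟨fun h K _ _ => h K _ (class_test hC), fun h K _ => ?_⟩⟩⟩
  · have h1 : Function.Bijective (canon K (Test C)) := ⟨canon_injective K _,
      division_of_countable _ (fun K' _ hK' => (h K' hK').2) K⟩
    exact ((canon_tfae K hC).out 2 0).1 h1
  · have h1 : Function.Bijective (canon K (Test C)) := ⟨canon_injective K _,
      field_of_countable _ (fun K' _ hK' => (h K' hK').2) K⟩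
    exact ((canon_tfae K hC).out 2 0).1 h1

end Pool.Agent.Results.MP_1a2884_al.TestGroups
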