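import Pool.Agent.U674.TJ.Can

/-!
# The canonical map `K₀(R) → K₀(R[Γ])` and left ideals generated by trinomials

Let `R` be a ring which is generated by a set `T` (as a ring), for example `ℤ` or `ℤ/p` with `T` empty, and
let `P` be a finitely generated projective `R[G]`-module, `G` any group. Over the group ring of every group
which contains the free product of `G` and a free group of a certain finite rank, and after adding a
finitely generated free module, `P` becomes a left ideal generated by finitely many elements
`1 + a + c b`, with group elements `a`, `b` and `c ∈ T` or `c = 1`. So, for each ring `R`, the bijectivity of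
the canonical maps `K₀(R) → K₀(R[Γ])` for all torsion-free groups `Γ` is a statement on the left ideals of
this kind, and even on those of the group ring of one countable torsion-free group, which does not
depend on `R`.

Proof. (1) Let `P ⊆ R[G]^n` be the row space of an idempotent matrix with rows `ρ_j`, and
`M = R[G]^n ⊕ R[G] z_1 ⊕ R[G] z_2`. The class of an element of `M` is given by the augmentations in `R` of
its last two coordinates. By the operation `(x, y) ↦ -(g x + c h y)`, `g, h ∈ G`, `c ∈ T` or `c = 1`, one
obtains from `z_1`, `z_2`, `e_j + z_2` all vectors `- ρ - z_1 - z_2`, so that all classes which occur are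
unimodular: elements of the class `(1, 0)` can be changed by `c h (y - y')`, `y`, `y'` of the class
`(0, 1)`, and conversely. Adding them one by one as generators, each with its relation, and the relations
`t_j + z_1 + z_2 = 0` for `t_j = - ρ_j - z_1 - z_2`, gives a presentation of `M / P` with trinomial relations;
its relation module `K ⊆ R[G]^V` is isomorphic to the direct sum of `P` and a free module. (2) Let `y_v`,
`v ∈ V`, be a basis of the free group `F`. The map `∑ c_v e_v ↦ ∑ c_v y_v` is injective on the extension of
`K` to `G * F`: there is a representation of `G * F` by triangular matrices in which `∑ c_v y_v`,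
`(c_v) ∈ K`, maps a certain vector to `(c_v)`; on the diagonal `G` acts trivially and `y_v` maps `(1, 0, 0)`
to `(0, w_v)`, where `w_v ∈ R²` is the class of `v`. (3) A group ring is a free module over the group ring
of a subgroup, so the same is true over larger groups.

This is the general form, with coefficients and over larger groups, of the presentation of
`MP_551055_al.TrinomialIdeals`, where `R = ℤ` and the question is the stable freeness. The test group and
the descent to countable fields are from `MP_1a2884_al.TestGroups`.
-/

set_option autoImplicit false

namespace Pool.Agent.Results.MP_1a2884_al.TrinomialIdealsCoefficients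

open Pool.Agent.U674.TJ Pool.Agent.U181.TG

/-- (1) Every idempotent matrix over `R[G]`, where the ring `R` is generated by `T`, has the property
`ByTrinomials`. (2) The class of torsion-free groups has the property `ClosedF`. Let `C` be any class of
groups with this property. The group `Γ₀ = Test C * F_ℕ` is countable and in `C`. For each ring `R`
generated by `T` the following are equivalent: the canonical map `K₀(R) → K₀(R[Γ])` is bijective for all
groups `Γ` in `C`; the classes of the projective left ideals of `R[Γ]` generated by finitely many elements
`1 + a + c b` (`a, b ∈ Γ`, and `c ∈ T` or `c = 1`) are in the image of `K₀(R)` for all groups `Γ` in `C`; the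
same for the group `Γ₀`. (3) These maps are bijective for all division rings `R` and all `Γ` in `C` if and
only if for all countable division rings `K` the classes of the projective left ideals of `K[Γ₀]`
generated by finitely many elements `1 + a + c b` (`a, b ∈ Γ₀`, `c ∈ K`) are in the image of `K₀(K)`.
(4) The same for fields. -/
theorem result :
    (∀ (R : Type) [Ring R] (T : Set R), Subring.closure T = ⊤ → ∀ (G : Type) [Group G] (n : ℕ)
      (E : Matrix (Fin n) (Fin n) (MonoidAlgebra R G)), E * E = E → ByTrinomials T E) ∧
    ClosedF (fun G _ => TorsionFree G) ∧
    ∀ C : ∀ (G : Type) [Group G], Prop, ClosedF C →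
      (Countable (GF (Test C) ℕ) ∧ C (GF (Test C) ℕ)) ∧
      (∀ (R : Type) [Ring R] (T : Set R), Subring.closure T = ⊤ →
        List.TFAE [BijC C R, TrinoC C R T, TrinoOne C R T]) ∧
      ((∀ (K : Type) [DivisionRing K], BijC C K) ↔
        ∀ (K : Type) [DivisionRing K], Countable K → TrinoOne C K Set.univ) ∧
      ((∀ (K : Type) [Field K], BijC C K) ↔
        ∀ (K : Type) [Field K], Countable K → TrinoOne C K Set.univ) := by
  refine ⟨fun R _ T hT G _ n E hE => main1H hT E hE, closedF_torsionFree, fun C hC => ⟨⟨?_, ?_⟩,
    fun R _ T hT => can_tfae hT hC, ⟨fun h K _ _ => ?_, fun h K _ => ?_⟩,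
      ⟨fun h K _ _ => ?_, fun h K _ => ?_⟩⟩⟩
  · have := countable_test (C := C)
    exact countable_GF (Test C)
  · exact hC.2 _ (class_test hC.1)
  · exact trino_of_surj (h K _ (hC.2 _ (class_test hC.1))).2
  · have h1 : Function.Bijective (canon K (Test C)) := ⟨canon_injective K _,
      division_of_countable _ (fun K' _ hK' =>
        surj_of_trino (T := Set.univ) Subring.closure_univ (h K' hK')) K⟩
    exact ((canon_tfae K hC.1).out 2 0).1 h1
  · exact trino_of_surj (h K _ (hC.2 _ (class_test hC.1))).2
  · have h1 : Function.Bijective (canon K (Test C)) := ⟨canon_injective K _,
      field_of_countable _ (fun K' _ hK' =>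
        surj_of_trino (T := Set.univ) Subring.closure_univ (h K' hK')) K⟩
    exact ((canon_tfae K hC.1).out 2 0).1 h1

end Pool.Agent.Results.MP_1a2884_al.TrinomialIdealsCoefficients
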